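import Pool.Agent.Lib.MP_17b37b_co.TMain

namespace Pool.Agent.Results.MP_17b37b_co.Toggle

open Pool.Agent.Lib.MP_17b37b_co

theorem result :
    (27 / 100 : ℝ) < 3 * (3 - √5) / Real.pi * Real.arcsin ((5 + √5) / 20) ∧
    ∀ X : Finset (EuclideanSpace ℝ (Fin 2)), (∀ p ∈ X, ∀ q ∈ X, p ≠ q → 1 ≤ dist p q) →
      ∀ w : EuclideanSpace ℝ (Fin 2) → ℝ, (∀ p ∈ X, 0 ≤ w p) →
        ∃ I ⊆ X, (∀ p ∈ I, ∀ q ∈ I, dist p q ≠ 1) ∧
          3 * (3 - √5) / Real.pi * Real.arcsin ((5 + √5) / 20) * ∑ p ∈ X, w p ≤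
            ∑ p ∈ I, w p := by
  classical
  constructor
  · obtain ⟨h1, h2⟩ := sqrt5_bounds
    have h3 := be_gt
    have h4 := Real.pi_lt_d4
    have h5 := Real.pi_pos
    unfold be at h3
    rw [div_mul_eq_mul_div, lt_div_iff₀ h5]
    nlinarith
  · intro X hX w hw
    have hd : ∀ p q : EuclideanSpace ℝ (Fin 2),
        d2 (fun p : EuclideanSpace ℝ (Fin 2) => p 0) (fun p => p 1) p q = dist p q ^ 2 := by
      intro p q
      rw [EuclideanSpace.dist_sq_eq, Fin.sum_univ_two, Real.dist_eq, Real.dist_eq, sq_abs, sq_abs]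
      rfl
    obtain ⟨I, hI, hmax⟩ := Finset.exists_max_image
      (X.powerset.filter fun I => ∀ p ∈ I, ∀ q ∈ I, dist p q ≠ 1) (fun I => ∑ p ∈ I, w p)
      ⟨∅, by simp⟩
    rw [Finset.mem_filter, Finset.mem_powerset] at hI
    refine ⟨I, hI.1, hI.2, ?_⟩
    have := main_bound (fun p : EuclideanSpace ℝ (Fin 2) => p 0) (fun p => p 1) X
      (fun p hp q hq h => by
        rw [hd]
        exact one_le_pow₀ (hX p hp q hq h)) w hw (∑ p ∈ I, w p)
      (fun J hJ h => hmax J (by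
        rw [Finset.mem_filter, Finset.mem_powerset]
        refine ⟨hJ, fun p hp q hq e => h p hp q hq ?_⟩
        rw [hd, e, one_pow]))
    rw [ga_sq_eq] at this
    unfold be at this
    refine le_trans (le_of_eq ?_) this
    ring

end Pool.Agent.Results.MP_17b37b_co.Toggle
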